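import Pool.Agent.E8helper66.PM.Grn

set_option autoImplicit false
open MeasureTheory Filter Topology Set
open scoped ContDiff ENNReal Real InnerProductSpace

namespace Pool.Agent.E8helper66.PM

open Pool.Agent.E8helper19.PM

noncomputable section

theorem eta_mul {U : Set E} {η : E → ℝ} (hη : Continuous η) (hc : HasCompactSupport η)
    (hs : tsupport η ⊆ U) (hU : IsOpen U) {w : E → ℂ} (hw : ContinuousOn w U) :
    Continuous (fun y => (η y : ℂ) * w y) ∧ Integrable (fun y => (η y : ℂ) * w y) := by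
  have h1 : Continuous (fun y => (η y : ℂ) * w y) := by
    rw [continuous_iff_continuousAt]
    intro x
    by_cases hx : x ∈ tsupport η
    · exact (Complex.continuous_ofReal.comp hη).continuousAt.mul
        (hw.continuousAt (hU.mem_nhds (hs hx)))
    · have e0 : η =ᶠ[𝓝 x] 0 := notMem_tsupport_iff_eventuallyEq.1 hx
      have e1 : (fun y => (η y : ℂ) * w y) =ᶠ[𝓝 x] fun _ => 0 := by
        filter_upwards [e0] with z hz
        rw [hz]
        simp
      exact continuousAt_const.congr e1.symm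
  refine ⟨h1, h1.integrable_of_hasCompactSupport ?_⟩
  apply HasCompactSupport.mul_right
  exact hc.comp_left (g := fun t : ℝ => (t : ℂ)) (by simp)

theorem t_CAC (h : S_GRN) : S_CAC := by
  intro k U K hU hK hKU
  obtain ⟨η, hη, hηc, hηs, hη01, U', hU', hKU', hη1⟩ := cutoff hK hU hKU
  -- bound for the gradient of the cutoff
  have hcont : Continuous (fun y => ∑ j : Fin 3, (fderiv ℝ η y (EuclideanSpace.single j 1)) ^ 2) := by
    apply continuous_finsetSum
    intro j _
    exact ((hη.continuous_fderiv (by simp)).clm_apply continuous_const).pow 2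
  have hcomp : HasCompactSupport
      (fun y => ∑ j : Fin 3, (fderiv ℝ η y (EuclideanSpace.single j 1)) ^ 2) := by
    have h1 := hηc.fderiv ℝ
    exact h1.comp_left (g := fun L : E →L[ℝ] ℝ => ∑ j : Fin 3, (L (EuclideanSpace.single j 1)) ^ 2)
      (by simp)
  obtain ⟨S, hS⟩ := hcomp.exists_bound_of_continuous hcont
  have hS0 : 0 ≤ S := (norm_nonneg _).trans (hS 0)
  refine ⟨2 * (k ^ 2 + 2 * S), ?_⟩
  intro v hv heq hint
  set Φ : E → ℂ := fun y => ((η y ^ 2 : ℝ) : ℂ) * v y with hΦ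
  have hΦs : ContDiff ℝ ∞ Φ := by
    rw [contDiff_iff_contDiffAt]
    intro x
    by_cases hx : x ∈ tsupport η
    · have h1 : ContDiffAt ℝ ∞ v x := hv.contDiffAt (hU.mem_nhds (hηs hx))
      have h2 : ContDiffAt ℝ ∞ (fun y => ((η y ^ 2 : ℝ) : ℂ)) x :=
        (Complex.ofRealCLM.contDiff.comp (hη.pow 2)).contDiffAt
      exact h2.mul h1
    · have e0 : η =ᶠ[𝓝 x] 0 := notMem_tsupport_iff_eventuallyEq.1 hx
      have e1 : Φ =ᶠ[𝓝 x] fun _ => 0 := by
        filter_upwards [e0] with z hz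
        rw [hΦ]
        simp only
        rw [hz]
        simp
      exact contDiffAt_const.congr_of_eventuallyEq e1
  have hΦc : HasCompactSupport Φ := by
    apply HasCompactSupport.mul_right
    exact hηc.comp_left (g := fun t : ℝ => ((t ^ 2 : ℝ) : ℂ)) (by simp)
  have hΦsupp : tsupport Φ ⊆ U := by
    refine subset_trans (closure_mono ?_) hηs
    intro y hy
    rw [Function.mem_support] at hy ⊢
    intro h0
    apply hy
    rw [hΦ]
    simp [h0]
  have hL : LTst U Φ := ⟨ContDiff.lipschitzWith_of_hasCompactSupport hΦc hΦs (by simp), hΦc, hΦsupp⟩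
  have h0 := h k U v Φ hU hv heq hL
  unfold form at h0
  -- the partial derivatives of the test function
  have hpd : ∀ y ∈ U, ∀ j, pd j Φ y = ((η y ^ 2 : ℝ) : ℂ) * pd j v y +
      ((2 * η y * fderiv ℝ η y (EuclideanSpace.single j 1) : ℝ) : ℂ) * v y := by
    intro y hy j
    have d1 : HasFDerivAt v (fderiv ℝ v y) y :=
      ((hv.contDiffAt (hU.mem_nhds hy)).differentiableAt (by simp)).hasFDerivAt
    have d2 : HasFDerivAt η (fderiv ℝ η y) y := (hη.differentiable (by simp) y).hasFDerivAt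
    have d3 : HasFDerivAt (fun z => η z ^ 2) ((2 * η y) • fderiv ℝ η y) y := by
      have h9 := d2.pow 2
      have e9 : (2 • η y ^ (2 - 1) : ℝ) = 2 * η y := by norm_num
      rw [e9] at h9
      exact h9
    have d4 : HasFDerivAt (fun z => ((η z ^ 2 : ℝ) : ℂ))
        (Complex.ofRealCLM.comp ((2 * η y) • fderiv ℝ η y)) y :=
      Complex.ofRealCLM.hasFDerivAt.comp y d3
    have d5 := d4.mul d1
    have d6 : fderiv ℝ Φ y = _ := d5.fderiv
    unfold pd
    rw [d6]
    simp only [_root_.add_apply, _root_.smul_apply,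
      ContinuousLinearMap.comp_apply, Complex.ofRealCLM_apply, smul_eq_mul]
    push_cast
    ring
  -- the integrand
  set F : E → ℂ := fun y => ⟪gr Φ y, gr v y⟫_ℂ - ((k ^ 2 : ℝ) : ℂ) * ((starRingEnd ℂ) (Φ y) * v y)
    with hF
  set T : E → ℂ := fun y => ∑ j : Fin 3, ((fderiv ℝ η y (EuclideanSpace.single j 1) : ℝ) : ℂ) *
    pd j v y with hT
  have hnorm : ∀ y, ‖gr v y‖ ^ 2 = ∑ j : Fin 3, ‖pd j v y‖ ^ 2 := by
    intro y
    rw [EuclideanSpace.norm_sq_eq]
    rfl
  have hF1 : ∀ y ∈ U, F y = ((η y : ℝ) : ℂ) * (((η y * ‖gr v y‖ ^ 2 : ℝ) : ℂ) +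
      2 * ((starRingEnd ℂ) (v y) * T y) - ((k ^ 2 * η y * ‖v y‖ ^ 2 : ℝ) : ℂ)) := by
    intro y hy
    rw [hF]
    simp only
    rw [inner_gr]
    have e1 : ∀ j : Fin 3, (starRingEnd ℂ) (pd j Φ y) * pd j v y =
        ((η y ^ 2 * ‖pd j v y‖ ^ 2 : ℝ) : ℂ) + 2 * (η y : ℂ) * (starRingEnd ℂ) (v y) *
          (((fderiv ℝ η y (EuclideanSpace.single j 1) : ℝ) : ℂ) * pd j v y) := by
      intro j
      rw [hpd y hy j, map_add, map_mul, map_mul, Complex.conj_ofReal, Complex.conj_ofReal, add_mul,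
        mul_assoc, Complex.conj_mul']
      push_cast
      ring
    rw [Finset.sum_congr rfl (fun j _ => e1 j), Finset.sum_add_distrib, ← Finset.mul_sum,
      hΦ, map_mul, Complex.conj_ofReal, mul_assoc ((η y ^ 2 : ℝ) : ℂ), Complex.conj_mul', hnorm, hT]
    push_cast
    rw [← Finset.mul_sum]
    ring
  have hcv : ContinuousOn v U := hv.continuousOn
  have hcpd : ∀ j, ContinuousOn (pd j v) U := fun j => (pd_smooth hU hv j).continuousOn
  have hcT : ContinuousOn T U := by
    apply continuousOn_finsetSum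
    intro j _
    exact (Complex.continuous_ofReal.comp
      ((hη.continuous_fderiv (by simp)).clm_apply continuous_const)).continuousOn.mul (hcpd j)
  have hcn : ContinuousOn (fun y => ‖gr v y‖ ^ 2) U := by
    have : (fun y => ‖gr v y‖ ^ 2) = fun y => ∑ j : Fin 3, ‖pd j v y‖ ^ 2 := funext hnorm
    rw [this]
    apply continuousOn_finsetSum
    intro j _
    exact (hcpd j).norm.pow 2
  have hG := eta_mul hη.continuous hηc hηs hU (w := fun y => ((η y * ‖gr v y‖ ^ 2 : ℝ) : ℂ) +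
      2 * ((starRingEnd ℂ) (v y) * T y) - ((k ^ 2 * η y * ‖v y‖ ^ 2 : ℝ) : ℂ)) (by
    apply ContinuousOn.sub
    · apply ContinuousOn.add
      · exact Complex.continuous_ofReal.comp_continuousOn (hη.continuous.continuousOn.mul hcn)
      · exact continuousOn_const.mul
          ((Complex.continuous_conj.comp_continuousOn hcv).mul hcT)
    · exact Complex.continuous_ofReal.comp_continuousOn
        ((continuousOn_const.mul hη.continuous.continuousOn).mul (hcv.norm.pow 2)))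
  have hG2 := eta_mul hη.continuous hηc hηs hU (w := fun y => ((η y * ‖gr v y‖ ^ 2 : ℝ) : ℂ))
    (Complex.continuous_ofReal.comp_continuousOn (hη.continuous.continuousOn.mul hcn))
  have hFi : IntegrableOn F U := by
    refine hG.2.integrableOn.congr_fun ?_ hU.measurableSet
    intro y hy
    exact (hF1 y hy).symm
  have hE : Integrable (fun y => η y ^ 2 * ‖gr v y‖ ^ 2) := by
    have := hG2.2.re
    refine this.congr (Eventually.of_forall fun y => ?_)
    simp only [RCLike.re_to_complex]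
    rw [← Complex.ofReal_mul, Complex.ofReal_re]
    ring
  -- the pointwise inequality
  have hpt : ∀ y ∈ U, 1 / 2 * (η y ^ 2 * ‖gr v y‖ ^ 2) - (k ^ 2 + 2 * S) * ‖v y‖ ^ 2 ≤ (F y).re := by
    intro y hy
    rw [hF1 y hy, Complex.re_ofReal_mul, Complex.sub_re, Complex.add_re, Complex.ofReal_re,
      Complex.ofReal_re]
    have e1 : (2 * ((starRingEnd ℂ) (v y) * T y)).re = 2 * ((starRingEnd ℂ) (v y) * T y).re := by
      rw [show (2 : ℂ) = ((2 : ℝ) : ℂ) by norm_num, Complex.re_ofReal_mul]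
    rw [e1]
    have e2 : -(‖v y‖ * ‖T y‖) ≤ ((starRingEnd ℂ) (v y) * T y).re := by
      have := (abs_le.1 (Complex.abs_re_le_norm ((starRingEnd ℂ) (v y) * T y))).1
      rwa [norm_mul, RCLike.norm_conj] at this
    have hSy : ∑ j : Fin 3, (fderiv ℝ η y (EuclideanSpace.single j 1)) ^ 2 ≤ S :=
      (le_abs_self _).trans (hS y)
    have e3 : ‖T y‖ ^ 2 ≤ S * ‖gr v y‖ ^ 2 := by
      have h1 : ‖T y‖ ≤ ∑ j : Fin 3, |fderiv ℝ η y (EuclideanSpace.single j 1)| * ‖pd j v y‖ := by
        rw [hT]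
        refine (norm_sum_le _ _).trans (le_of_eq ?_)
        apply Finset.sum_congr rfl
        intro j _
        rw [norm_mul, Complex.norm_real, Real.norm_eq_abs]
      have h2 := Finset.sum_mul_sq_le_sq_mul_sq Finset.univ
        (fun j : Fin 3 => |fderiv ℝ η y (EuclideanSpace.single j 1)|) (fun j => ‖pd j v y‖)
      simp only [sq_abs] at h2
      calc ‖T y‖ ^ 2 ≤ (∑ j : Fin 3, |fderiv ℝ η y (EuclideanSpace.single j 1)| * ‖pd j v y‖) ^ 2 :=
            pow_le_pow_left₀ (norm_nonneg _) h1 2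
        _ ≤ _ := h2
        _ ≤ S * ‖gr v y‖ ^ 2 := by
          rw [hnorm]
          exact mul_le_mul_of_nonneg_right hSy (Finset.sum_nonneg fun j _ => by positivity)
    obtain ⟨hη0, hη1'⟩ := hη01 y
    have e4 : 2 * η y * (‖v y‖ * ‖T y‖) ≤ 1 / 2 * (η y ^ 2 * ‖gr v y‖ ^ 2) + 2 * S * ‖v y‖ ^ 2 := by
      refine (pow_le_pow_iff_left₀ (by positivity) (by positivity) two_ne_zero).1 ?_
      have a1 : (2 * η y * (‖v y‖ * ‖T y‖)) ^ 2 = 4 * η y ^ 2 * ‖v y‖ ^ 2 * ‖T y‖ ^ 2 := by ring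
      have a2 : 4 * η y ^ 2 * ‖v y‖ ^ 2 * ‖T y‖ ^ 2 ≤
          4 * η y ^ 2 * ‖v y‖ ^ 2 * (S * ‖gr v y‖ ^ 2) := by gcongr
      rw [a1]
      refine a2.trans ?_
      nlinarith [sq_nonneg (1 / 2 * (η y ^ 2 * ‖gr v y‖ ^ 2) - 2 * S * ‖v y‖ ^ 2)]
    have e5 : η y ^ 2 ≤ 1 := pow_le_one₀ hη0 hη1'
    have e6 : k ^ 2 * (η y ^ 2 * ‖v y‖ ^ 2) ≤ k ^ 2 * ‖v y‖ ^ 2 := by
      apply mul_le_mul_of_nonneg_left _ (sq_nonneg k)
      exact mul_le_of_le_one_left (by positivity) e5
    have e7 : η y * (2 * (-(‖v y‖ * ‖T y‖))) ≤ η y * (2 * ((starRingEnd ℂ) (v y) * T y).re) := by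
      gcongr
    nlinarith
  have hre : ∫ y in U, (F y).re = 0 := by
    have := integral_re hFi
    simp only [RCLike.re_to_complex] at this
    rw [this, h0]
    rfl
  have hI1 : IntegrableOn (fun y => 1 / 2 * (η y ^ 2 * ‖gr v y‖ ^ 2)) U := (hE.const_mul _).integrableOn
  have hI2 : IntegrableOn (fun y => (k ^ 2 + 2 * S) * ‖v y‖ ^ 2) U := hint.const_mul _
  have hineq : ∫ y in U, (1 / 2 * (η y ^ 2 * ‖gr v y‖ ^ 2) - (k ^ 2 + 2 * S) * ‖v y‖ ^ 2) ≤ 0 := by
    rw [← hre]
    exact setIntegral_mono_on (hI1.sub hI2) hFi.re hU.measurableSet hpt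
  rw [integral_sub hI1 hI2, integral_const_mul, integral_const_mul] at hineq
  have hKE : ∫ y in K, ‖gr v y‖ ^ 2 ≤ ∫ y in U, η y ^ 2 * ‖gr v y‖ ^ 2 := by
    have e1 : ∫ y in K, ‖gr v y‖ ^ 2 = ∫ y in K, η y ^ 2 * ‖gr v y‖ ^ 2 := by
      apply setIntegral_congr_fun hK.measurableSet
      intro y hy
      simp only
      rw [hη1 y (hKU' hy), one_pow, one_mul]
    rw [e1]
    exact setIntegral_mono_set hE.integrableOn (Eventually.of_forall fun y => by positivity)
      hKU.eventuallyLE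
  nlinarith

end

end Pool.Agent.E8helper66.PM
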