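import Pool.Agent.E8helper19.PM.Stm

set_option autoImplicit false
open MeasureTheory Filter Topology Set
open scoped ContDiff ENNReal Real InnerProductSpace Manifold

namespace Pool.Agent.E8helper66.PM

open Pool.Agent.E8helper19.PM

noncomputable section

/-- smooth cutoff functions -/
theorem cutoff {K Ω : Set E} (hK : IsCompact K) (hΩ : IsOpen Ω) (h : K ⊆ Ω) :
    ∃ η : E → ℝ, ContDiff ℝ ∞ η ∧ HasCompactSupport η ∧ tsupport η ⊆ Ω ∧
      (∀ y, 0 ≤ η y ∧ η y ≤ 1) ∧ ∃ U, IsOpen U ∧ K ⊆ U ∧ ∀ y ∈ U, η y = 1 := by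
  obtain ⟨L, hL, hKL, hLΩ⟩ := exists_compact_between hK hΩ h
  obtain ⟨L', hL', hLL', hL'Ω⟩ := exists_compact_between hL hΩ hLΩ
  obtain ⟨f, hf0, hf1, hf01⟩ := exists_contMDiffMap_zero_one_of_isClosed (n := (⊤ : ℕ∞)) 𝓘(ℝ, E)
    (s := (interior L')ᶜ) (t := L) isOpen_interior.isClosed_compl hL.isClosed (by
      rw [Set.disjoint_compl_left_iff_subset]
      exact hLL')
  have hsupp : tsupport f ⊆ L' := by
    apply closure_minimal _ hL'.isClosed
    intro y hy
    by_contra hcon
    exact hy (hf0 (fun hh => hcon (interior_subset hh)))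
  refine ⟨f, f.contMDiff.contDiff, HasCompactSupport.of_support_subset_isCompact hL'
    (subset_closure.trans hsupp), hsupp.trans hL'Ω, fun y => hf01 y, interior L,
    isOpen_interior, hKL, fun y hy => hf1 (interior_subset hy)⟩

/-- the derivatives of a Lipschitz function with compact support have integral zero -/
theorem int_fderiv {P : E → ℂ} {C : NNReal} (hP : LipschitzWith C P) (hc : HasCompactSupport P)
    (e : E) : Integrable (fun y => fderiv ℝ P y e) ∧ ∫ y, fderiv ℝ P y e = 0 := by
  -- the translates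
  set K : Set E := (fun p : ℝ × E => p.2 - p.1 • e) '' (Icc (-1 : ℝ) 1 ×ˢ tsupport P) with hKdef
  have hK : IsCompact K := (isCompact_Icc.prod hc.isCompact).image (by fun_prop)
  have hzero : ∀ y, y ∉ K → ∀ t ∈ Icc (-1 : ℝ) 1, P (y + t • e) = 0 := by
    intro y hy t ht
    by_contra hcon
    apply hy
    refine ⟨(t, y + t • e), ⟨ht, subset_tsupport _ hcon⟩, ?_⟩
    simp
  have hmeas : ∀ t : ℝ, AEStronglyMeasurable (fun y => P (y + t • e)) volume := fun t =>
    (hP.continuous.comp (by fun_prop)).aestronglyMeasurable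
  have hint : Integrable P := hP.continuous.integrable_of_hasCompactSupport hc
  obtain ⟨h1, h2⟩ := hasDerivAt_integral_of_dominated_loc_of_lip (𝕜 := ℝ) (μ := (volume : Measure E))
    (F := fun (t : ℝ) (y : E) => P (y + t • e)) (x₀ := (0 : ℝ)) (s := Ioo (-1 : ℝ) 1)
    (bound := K.indicator (fun _ => (C : ℝ) * ‖e‖)) (F' := fun y => fderiv ℝ P y e)
    (Ioo_mem_nhds (by norm_num) (by norm_num)) (Eventually.of_forall hmeas)
    (by simpa using hint) (measurable_fderiv_apply_const ℝ P e).aestronglyMeasurable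
    (Eventually.of_forall fun y => by
      by_cases hy : y ∈ K
      · rw [indicator_of_mem hy]
        apply LipschitzOnWith.of_dist_le_mul
        intro s _ t _
        rw [Real.coe_nnabs, abs_of_nonneg (by positivity)]
        refine (hP.dist_le_mul _ _).trans ?_
        rw [dist_add_left, dist_eq_norm, ← sub_smul, norm_smul, dist_eq_norm]
        apply le_of_eq
        ring
      · rw [indicator_of_notMem hy]
        apply LipschitzOnWith.of_dist_le_mul
        intro s hs t ht
        rw [hzero y hy s (Ioo_subset_Icc_self hs), hzero y hy t (Ioo_subset_Icc_self ht)]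
        simp)
    ((integrable_indicator_iff hK.measurableSet).2 (integrableOn_const (by
      exact hK.measure_lt_top.ne)))
    (by
      filter_upwards [hP.ae_differentiableAt] with y hy
      have h3 : HasFDerivAt P (fderiv ℝ P y) (y + (0 : ℝ) • e) := by
        rw [zero_smul, add_zero]; exact hy.hasFDerivAt
      have h4 : HasDerivAt (fun t : ℝ => y + t • e) ((1 : ℝ) • e) 0 :=
        ((hasDerivAt_id (0 : ℝ)).smul_const e).const_add y
      have h5 := h3.comp_hasDerivAt (0 : ℝ) h4
      rw [one_smul] at h5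
      exact h5)
  refine ⟨h1, ?_⟩
  have h3 : (fun t : ℝ => ∫ y, P (y + t • e)) = fun _ => ∫ y, P y := by
    funext t
    exact integral_add_right_eq_self (μ := (volume : Measure E)) P (t • e)
  have h4 : HasDerivAt (fun t : ℝ => ∫ y, P (y + t • e)) (∫ y, fderiv ℝ P y e) 0 := h2
  rw [h3] at h4
  exact h4.unique (hasDerivAt_const _ _)

end

end Pool.Agent.E8helper66.PM
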