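import Pool.Agent.E8helper66.PM.Cut

set_option autoImplicit false
open MeasureTheory Filter Topology Set
open scoped ContDiff ENNReal Real InnerProductSpace

namespace Pool.Agent.E8helper66.PM

open Pool.Agent.E8helper19.PM

noncomputable section

theorem inner_gr (Φ v : E → ℂ) (y : E) :
    ⟪gr Φ y, gr v y⟫_ℂ = ∑ j : Fin 3, (starRingEnd ℂ) (pd j Φ y) * pd j v y := by
  rw [PiLp.inner_apply]
  apply Finset.sum_congr rfl
  intro j _
  rw [RCLike.inner_apply, mul_comm]
  rfl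

theorem pd_smooth {Ω : Set E} {v : E → ℂ} (hΩ : IsOpen Ω) (hv : ContDiffOn ℝ ∞ v Ω) (j : Fin 3) :
    ContDiffOn ℝ ∞ (pd j v) Ω := by
  have h1 : ContDiffOn ℝ ∞ (fderiv ℝ v) Ω := hv.fderiv_of_isOpen hΩ (by simp)
  exact h1.clm_apply contDiffOn_const

theorem mul_lip {f g : E → ℂ} {C D : NNReal} (hf : LipschitzWith C f) (hg : LipschitzWith D g)
    {A B : ℝ} (hA : ∀ y, ‖f y‖ ≤ A) (hB : ∀ y, ‖g y‖ ≤ B) :
    LipschitzWith (Real.toNNReal (A * D + B * C)) (fun y => f y * g y) := by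
  have hA0 : 0 ≤ A := (norm_nonneg _).trans (hA 0)
  have hB0 : 0 ≤ B := (norm_nonneg _).trans (hB 0)
  apply LipschitzWith.of_dist_le_mul
  intro x y
  rw [Real.coe_toNNReal _ (by positivity), dist_eq_norm]
  have h1 := hf.dist_le_mul x y
  have h2 := hg.dist_le_mul x y
  rw [dist_eq_norm (f x)] at h1
  rw [dist_eq_norm (g x)] at h2
  calc ‖f x * g x - f y * g y‖ = ‖f x * (g x - g y) + (f x - f y) * g y‖ := by congr 1; ring
    _ ≤ ‖f x‖ * ‖g x - g y‖ + ‖f x - f y‖ * ‖g y‖ := by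
      refine (norm_add_le _ _).trans ?_
      rw [norm_mul, norm_mul]
    _ ≤ A * (D * dist x y) + (C * dist x y) * B := by
      gcongr
      · exact hA x
      · exact hB y
    _ = _ := by ring

/-- one coordinate of Green's identity -/
theorem grn_one {Ω : Set E} {v Φ : E → ℂ} (hΩ : IsOpen Ω) (hv : ContDiffOn ℝ ∞ v Ω)
    (hΦ : LTst Ω Φ) (j : Fin 3) :
    IntegrableOn (fun y => (starRingEnd ℂ) (pd j Φ y) * pd j v y +
      (starRingEnd ℂ) (Φ y) * pd j (pd j v) y) Ω ∧
    ∫ y in Ω, ((starRingEnd ℂ) (pd j Φ y) * pd j v y +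
      (starRingEnd ℂ) (Φ y) * pd j (pd j v) y) = 0 := by
  obtain ⟨⟨C, hC⟩, hc, hs⟩ := hΦ
  obtain ⟨η, hη, hηc, hηs, -, U, hU, hKU, hη1⟩ := cutoff hc.isCompact hΩ hs
  set V : E → ℂ := fun y => (η y : ℂ) * pd j v y with hV
  have hVs : ContDiff ℝ ∞ V := by
    rw [contDiff_iff_contDiffAt]
    intro x
    by_cases hx : x ∈ tsupport η
    · have hx' : x ∈ Ω := hηs hx
      have h1 : ContDiffAt ℝ ∞ (pd j v) x := (pd_smooth hΩ hv j).contDiffAt (hΩ.mem_nhds hx')
      have h2 : ContDiffAt ℝ ∞ (fun y => (η y : ℂ)) x :=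
        (Complex.ofRealCLM.contDiff.comp hη).contDiffAt
      exact h2.mul h1
    · have e0 : η =ᶠ[𝓝 x] 0 := notMem_tsupport_iff_eventuallyEq.1 hx
      have e1 : V =ᶠ[𝓝 x] fun _ => 0 := by
        filter_upwards [e0] with z hz
        rw [hV]
        simp only
        rw [hz]
        simp
      exact contDiffAt_const.congr_of_eventuallyEq e1
  have hVc : HasCompactSupport V := by
    apply HasCompactSupport.mul_right
    exact hηc.comp_left (g := fun t : ℝ => (t : ℂ)) (by simp)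
  obtain ⟨D, hD⟩ := ContDiff.lipschitzWith_of_hasCompactSupport hVc hVs (by simp)
  obtain ⟨B, hB⟩ := hVc.exists_bound_of_continuous hVs.continuous
  set Φ' : E → ℂ := fun y => (starRingEnd ℂ) (Φ y) with hΦ'
  have hΦ'L : LipschitzWith C Φ' := by
    apply LipschitzWith.of_dist_le_mul
    intro x y
    have := hC.dist_le_mul x y
    rw [dist_eq_norm] at this ⊢
    rw [hΦ']
    simp only
    rw [← map_sub, RCLike.norm_conj]
    exact this
  have hΦ'c : HasCompactSupport Φ' := hc.comp_left (g := starRingEnd ℂ) (map_zero _)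
  obtain ⟨A, hA⟩ := hΦ'c.exists_bound_of_continuous hΦ'L.continuous
  have hPL := mul_lip hΦ'L hD hA hB
  have hPc : HasCompactSupport (fun y => Φ' y * V y) := hΦ'c.mul_right
  obtain ⟨h1, h2⟩ := int_fderiv hPL hPc (EuclideanSpace.single j 1)
  -- the derivative
  have hae : ∀ᵐ y : E, fderiv ℝ (fun y => Φ' y * V y) y (EuclideanSpace.single j 1) =
      (starRingEnd ℂ) (pd j Φ y) * pd j v y + (starRingEnd ℂ) (Φ y) * pd j (pd j v) y := by
    filter_upwards [hC.ae_differentiableAt] with y hy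
    by_cases hyK : y ∈ tsupport Φ
    · have hyU : y ∈ U := hKU hyK
      have hVy : V =ᶠ[𝓝 y] pd j v := by
        filter_upwards [hU.mem_nhds hyU] with z hz
        rw [hV]
        simp only
        rw [hη1 z hz]
        simp
      have hdV : DifferentiableAt ℝ V y := hVs.differentiable (by simp) y
      have e1 : fderiv ℝ Φ' y = ((Complex.conjCLE : ℂ →L[ℝ] ℂ)).comp (fderiv ℝ Φ y) := by
        have : HasFDerivAt Φ' (((Complex.conjCLE : ℂ →L[ℝ] ℂ)).comp (fderiv ℝ Φ y)) y :=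
          (Complex.conjCLE : ℂ →L[ℝ] ℂ).hasFDerivAt.comp y hy.hasFDerivAt
        exact this.fderiv
      have hdΦ' : DifferentiableAt ℝ Φ' y :=
        ((Complex.conjCLE : ℂ →L[ℝ] ℂ).hasFDerivAt.comp y hy.hasFDerivAt).differentiableAt
      rw [fderiv_fun_mul hdΦ' hdV, hVy.fderiv_eq, e1]
      have e2 : V y = pd j v y := hVy.self_of_nhds
      rw [e2]
      show Φ' y * (fderiv ℝ (pd j v) y) (EuclideanSpace.single j 1) +
        pd j v y * (starRingEnd ℂ) (fderiv ℝ Φ y (EuclideanSpace.single j 1)) = _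
      rw [hΦ']
      unfold pd
      ring
    · have e0 : Φ =ᶠ[𝓝 y] 0 := notMem_tsupport_iff_eventuallyEq.1 hyK
      have e1 : (fun z => Φ' z * V z) =ᶠ[𝓝 y] fun _ => 0 := by
        filter_upwards [e0] with z hz
        rw [hΦ']
        simp only
        rw [hz]
        simp
      have e2 : pd j Φ y = 0 := by
        unfold pd
        rw [e0.fderiv_eq]
        have : fderiv ℝ (0 : E → ℂ) y = 0 := fderiv_const_apply 0
        rw [this]; rfl
      have e3 : Φ y = 0 := e0.self_of_nhds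
      rw [e1.fderiv_eq, e2, e3]
      simp
  have hint : Integrable (fun y => (starRingEnd ℂ) (pd j Φ y) * pd j v y +
      (starRingEnd ℂ) (Φ y) * pd j (pd j v) y) := h1.congr hae
  refine ⟨hint.integrableOn, ?_⟩
  rw [setIntegral_eq_integral_of_forall_compl_eq_zero, ← integral_congr_ae hae, h2]
  intro y hy
  have hyK : y ∉ tsupport Φ := fun hh => hy (hs hh)
  have e0 : Φ =ᶠ[𝓝 y] 0 := notMem_tsupport_iff_eventuallyEq.1 hyK
  have e2 : pd j Φ y = 0 := by
    unfold pd
    rw [e0.fderiv_eq]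
    have : fderiv ℝ (0 : E → ℂ) y = 0 := fderiv_const_apply 0
    rw [this]; rfl
  have e3 : Φ y = 0 := e0.self_of_nhds
  rw [e2, e3]
  simp

theorem t_GRN : S_GRN := by
  intro k Ω v Φ hΩ hv heq hΦ
  unfold form
  have h1 : ∫ y in Ω, (⟪gr Φ y, gr v y⟫_ℂ - ((k ^ 2 : ℝ) : ℂ) * ((starRingEnd ℂ) (Φ y) * v y)) =
      ∫ y in Ω, ∑ j : Fin 3, ((starRingEnd ℂ) (pd j Φ y) * pd j v y +
        (starRingEnd ℂ) (Φ y) * pd j (pd j v) y) := by
    apply setIntegral_congr_fun hΩ.measurableSet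
    intro y hy
    simp only
    rw [inner_gr, Finset.sum_add_distrib, ← Finset.mul_sum]
    have h2 := heq y hy
    unfold lap at h2
    rw [h2]
    ring
  rw [h1, integral_finsetSum _ (fun j _ => (grn_one hΩ hv hΦ j).1)]
  exact Finset.sum_eq_zero (fun j _ => (grn_one hΩ hv hΦ j).2)

end

end Pool.Agent.E8helper66.PM
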